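import Pool.Agent.H73.NP.T
import Pool.Agent.H70.SW.S8

/-!
Row ALT of the board np: every set with an inner node is captured; homomorphisms of canonical
databases.
-/

set_option autoImplicit false

namespace Pool.Agent.H55.NP

open Pool.Agent.H76.SW Pool.Agent.H73.NP

theorem pf_ALT : N_ALT := by
  intro A P gs T
  induction T with
  | edge a =>
    intro ι K g h
    obtain ⟨x, -, ⟨y, hy⟩, hx⟩ := h
    exact absurd ⟨(y : Bool), hy⟩ hx
  | node n m src tgt ch p q ih =>
    intro ι K g h
    by_cases hc : ∃ i : Fin m, (K ∩ In gs (ch i) (fun x => ι (Sum.inr ⟨i, x⟩))).Nonempty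
    · obtain ⟨i, hi⟩ := hc
      rcases ih i (fun x => ι (Sum.inr ⟨i, x⟩)) K g hi with h1 | h1
      · exact Or.inl (Or.inr ⟨i, hi, h1⟩)
      · exact Or.inr (Or.inr ⟨i, hi, h1⟩)
    · have h0 : ∀ i : Fin m, K ∩ In gs (ch i) (fun x => ι (Sum.inr ⟨i, x⟩)) = ∅ := by
        intro i
        rw [← Set.not_nonempty_iff_eq_empty]
        exact fun h => hc ⟨i, h⟩
      by_cases hg : g (Bd gs (Term.node n m src tgt ch p q) ι)
      · exact Or.inl (Or.inl ⟨h0, hg⟩)
      · exact Or.inr (Or.inl ⟨h0, hg⟩)

/-- the two values -/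
def sel {V : Type} (u v : V) (b : Bool) : V := if b = true then v else u

theorem pf_HOM : N_HOM := by
  intro A V T E u v h
  cases T with
  | edge a =>
    have hE : E u a v := h
    refine ⟨Quot.lift (fun b : (Term.edge a).Pos => sel u v b) ?_, ?_⟩
    · intro x y hxy
      rcases hxy with ⟨-, h1, -⟩ | ⟨-, h1, -⟩ <;> exact absurd h1 (by simp)
    · rintro x b y ⟨x', y', rfl, rfl, hs⟩
      rcases hs with ⟨h1, h2, h3⟩ | ⟨-, h2, -⟩
      · have hb : b = a := by
          simpa using h2
        subst hb
        have e1 : sel u v x' = u := by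
          have : x' = false := h1
          rw [this]
          simp [sel]
        have e2 : sel u v y' = v := by
          have : y' = true := h3
          rw [this]
          simp [sel]
        change E (sel u v x') b (sel u v y')
        rw [e1, e2]
        exact hE
      · simp at h2
  | node n m src tgt ch p q =>
    obtain ⟨μ, h1, -, -⟩ := h
    obtain ⟨φ, -, h3⟩ := Pool.Agent.H70.SW.pf_S8 src tgt ch p q E μ h1
    exact ⟨φ, h3⟩

end Pool.Agent.H55.NP
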